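import Pool.Agent.Helpers29.UC6

set_option autoImplicit false

namespace Pool.Agent.Results.MP_c7dc48_pr.AlphaMixingUCEM

open MeasureTheory Filter Topology

/-- The process with law `Q` is stationary. -/
def Stationary {X : Type} [MeasurableSpace X] (Q : Measure (ℕ → X)) : Prop :=
  Q.map (fun (ω : ℕ → X) (n : ℕ) => ω (n + 1)) = Q

/-- The strong mixing coefficient `α(k)` of `Q` is at most `c`. -/
def AlphaLE {X : Type} [mX : MeasurableSpace X] (Q : Measure (ℕ → X)) (k : ℕ) (c : ℝ) : Prop :=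
  ∀ l : ℕ, ∀ A S : Set (ℕ → X),
    @MeasurableSet (ℕ → X)
      (⨆ (i : ℕ) (_ : i ≤ l), MeasurableSpace.comap (fun ω : ℕ → X => ω i) mX) A →
    @MeasurableSet (ℕ → X)
      (⨆ (i : ℕ) (_ : l + k ≤ i), MeasurableSpace.comap (fun ω : ℕ → X => ω i) mX) S →
    |Q.real (A ∩ S) - Q.real A * Q.real S| ≤ c

/-- `q(m, ε, Q)` for the family `𝓕` and the marginal `P0` (outer measure). -/
noncomputable def q {X : Type} [MeasurableSpace X] (𝓕 : Set (X → ℝ)) (P0 : Measure X)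
    (m : ℕ) (ε : ℝ) (Q : Measure (ℕ → X)) : ENNReal :=
  Q {x : ℕ → X | ∃ f ∈ 𝓕,
    ε < |(1 / (m : ℝ)) * ∑ i ∈ Finset.range m, f (x i) - ∫ y, f y ∂P0|}

/-- There is a stationary process with `α(k) ≤ 2^{-k}/4` for all `k` and an infinite family of
measurable functions into `[0,1]` such that, for every `ε > 0`, `q(m, ε, i.i.d.) = 0` for all
large `m`, while `q(m, 1/2, process) = 1` for all `m ≥ 1`. -/
theorem result :
    ∃ (X : Type) (_ : MeasurableSpace X) (P : Measure (ℕ → X)) (P0 : Measure X)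
      (_ : IsProbabilityMeasure P) (_ : IsProbabilityMeasure P0) (𝓕 : Set (X → ℝ)),
      Stationary P ∧ P.map (fun ω : ℕ → X => ω 0) = P0 ∧
      (∀ k : ℕ, AlphaLE P k ((1 / 2) ^ k / 4)) ∧
      𝓕.Infinite ∧ (∀ f ∈ 𝓕, Measurable f ∧ ∀ x, 0 ≤ f x ∧ f x ≤ 1) ∧
      (∀ ε : ℝ, 0 < ε → ∃ M : ℕ, ∀ m : ℕ, M ≤ m →
        q 𝓕 P0 m ε (Measure.infinitePi (fun _ : ℕ => P0)) = 0) ∧
      (∀ m : ℕ, 1 ≤ m → q 𝓕 P0 m (1 / 2) P = 1) := by
  refine ⟨ℕ → Bool, inferInstance, Helpers29.UC.PP, Helpers29.UC.Q0, inferInstance,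
    inferInstance, Helpers29.UC.FF, Helpers29.UC.PP_shift, Helpers29.UC.PP_marg, ?_,
    Helpers29.UC.FF_infinite, Helpers29.UC.FF_bdd, ?_, ?_⟩
  · intro k l A S hA hS
    exact Helpers29.UC.mixing k l hA hS
  · intro ε hε
    obtain ⟨M, hM⟩ := exists_nat_gt (1 / ε)
    refine ⟨max M 1, fun m hm => ?_⟩
    have hm1 : 1 ≤ m := (le_max_right _ _).trans hm
    have hm0 : (0 : ℝ) < m := by exact_mod_cast hm1
    have hmM : (M : ℝ) ≤ m := by exact_mod_cast (le_max_left _ _).trans hm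
    apply Helpers29.UC.iid_zero ε hε m hm1
    rw [div_lt_iff₀ hm0]
    have : 1 / ε < m := lt_of_lt_of_le hM hmM
    rw [div_lt_iff₀ hε] at this
    linarith
  · intro m hm
    exact Helpers29.UC.process_one m hm

end Pool.Agent.Results.MP_c7dc48_pr.AlphaMixingUCEM
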